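import Mathlib

set_option autoImplicit false

open Filter Topology

namespace Pool.Agent.P.MP_39ae23_nt

/-! ### Tails of fast series -/

theorem geom_bound {g : ℕ → ℝ} (h2 : ∀ i, g (i + 1) ≤ g i / 2) (k i : ℕ) :
    g (k + i) ≤ g k * (1 / 2) ^ i := by
  induction i with
  | zero => simp
  | succ i ih =>
    have := h2 (k + i)
    rw [← add_assoc, pow_succ]
    linarith

theorem summable_tail {h g : ℕ → ℝ} (h1 : ∀ i, |h i| ≤ g i) (h2 : ∀ i, g (i + 1) ≤ g i / 2)
    (k : ℕ) : Summable fun i => h (k + i) := by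
  refine Summable.of_norm_bounded (g := fun i => g k * (1 / 2) ^ i) ?_ ?_
  · exact summable_geometric_two.mul_left _
  · intro i
    exact (h1 _).trans (geom_bound h2 k i)

/-- The tail sum from index `k` on. -/
noncomputable def tail (h : ℕ → ℝ) (k : ℕ) : ℝ := ∑' i, h (k + i)

theorem tail_succ {h g : ℕ → ℝ} (h1 : ∀ i, |h i| ≤ g i) (h2 : ∀ i, g (i + 1) ≤ g i / 2)
    (k : ℕ) : tail h k = h k + tail h (k + 1) := by
  unfold tail
  rw [(summable_tail h1 h2 k).tsum_eq_zero_add]
  simp only [add_zero]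
  congr 1
  refine tsum_congr fun i => ?_
  congr 1
  ring

theorem abs_tail_le {h g : ℕ → ℝ} (h1 : ∀ i, |h i| ≤ g i) (h2 : ∀ i, g (i + 1) ≤ g i / 2)
    (k : ℕ) : |tail h k| ≤ 2 * g k := by
  unfold tail
  have hs : HasSum (fun i : ℕ => g k * (1 / 2 : ℝ) ^ i) (g k * 2) := hasSum_geometric_two.mul_left _
  have := tsum_of_norm_bounded hs (f := fun i => h (k + i))
    (fun i => (h1 _).trans (geom_bound h2 k i))
  rw [Real.norm_eq_abs] at this
  linarith

theorem tail_nonneg {h : ℕ → ℝ} (h0 : ∀ i, 0 ≤ h i) (k : ℕ) : 0 ≤ tail h k :=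
  tsum_nonneg fun _ => h0 _

/-! ### The scales -/

/-- The integer scales. -/
def cN : ℕ → ℕ
  | 0 => 10
  | k + 1 => cN k ^ 3 * (k + 300)

/-- The scales as real numbers. -/
noncomputable def c (k : ℕ) : ℝ := cN k

/-- The step sizes. -/
noncomputable def rho (k : ℕ) : ℝ := 1 / ((k : ℝ) + 300)

theorem c_succ (k : ℕ) : c (k + 1) = c k ^ 3 * ((k : ℝ) + 300) := by
  simp [c, cN]

theorem c_ge (k : ℕ) : (k : ℝ) + 10 ≤ c k := by
  induction k with
  | zero => simp [c, cN]
  | succ k ih =>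
    rw [c_succ]
    have hk : (0 : ℝ) ≤ k := Nat.cast_nonneg k
    have h1 : (1 : ℝ) ≤ c k ^ 3 := one_le_pow₀ (by linarith)
    push_cast
    nlinarith

theorem c_ten (k : ℕ) : 10 ≤ c k := by
  have := c_ge k
  have hk : (0 : ℝ) ≤ k := Nat.cast_nonneg k
  linarith

theorem c_pos (k : ℕ) : 0 < c k := by linarith [c_ten k]

theorem c_succ_ge (k : ℕ) : 100 * c k ^ 2 ≤ c (k + 1) := by
  rw [c_succ]
  have hk : (0 : ℝ) ≤ k := Nat.cast_nonneg k
  have h := c_ten k
  have h2 : 0 ≤ c k ^ 2 := by positivity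
  have h3 : c k ^ 3 = c k ^ 2 * c k := by ring
  rw [h3]
  have : 100 ≤ c k * ((k : ℝ) + 300) := by nlinarith
  nlinarith

theorem c_succ_ge' (k : ℕ) : 1000 * c k ≤ c (k + 1) := by
  have h := c_ten k
  have := c_succ_ge k
  nlinarith

theorem rho_pos (k : ℕ) : 0 < rho k := by unfold rho; positivity

theorem rho_le (k : ℕ) : rho k ≤ 1 / 300 := by
  unfold rho
  have hk : (0 : ℝ) ≤ k := Nat.cast_nonneg k
  exact one_div_le_one_div_of_le (by norm_num) (by linarith)

theorem rho_succ_le (k : ℕ) : rho (k + 1) ≤ rho k := by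
  unfold rho
  have hk : (0 : ℝ) ≤ k := Nat.cast_nonneg k
  push_cast
  exact one_div_le_one_div_of_le (by linarith) (by linarith)

theorem rho_le_two (k : ℕ) : rho k ≤ 2 * rho (k + 1) := by
  unfold rho
  have hk : (0 : ℝ) ≤ k := Nat.cast_nonneg k
  push_cast
  rw [mul_one_div, div_le_div_iff₀ (by linarith) (by linarith)]
  linarith

theorem c_div_succ (k : ℕ) : c k / c (k + 1) = rho k / c k ^ 2 := by
  rw [c_succ]
  unfold rho
  have := c_pos k
  have hk : (0 : ℝ) ≤ k := Nat.cast_nonneg k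
  field_simp

/-! ### The number beta -/

theorem inv_c_abs (i : ℕ) : |1 / c i| ≤ 1 / c i := by
  rw [abs_of_pos (one_div_pos.mpr (c_pos i))]

theorem inv_c_half (i : ℕ) : 1 / c (i + 1) ≤ 1 / c i / 2 := by
  have h := c_succ_ge' i
  have := c_pos i
  rw [div_div]
  exact one_div_le_one_div_of_le (by positivity) (by linarith)

/-- Tails of the series of reciprocals. -/
noncomputable def tau (k : ℕ) : ℝ := tail (fun i => 1 / c i) k

/-- The second coordinate of the matrix. -/
noncomputable def beta : ℝ := tau 0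

/-- The fractional part of `c k * beta`. -/
noncomputable def theta (k : ℕ) : ℝ := c k * tau (k + 1)

theorem tau_succ (k : ℕ) : tau k = 1 / c k + tau (k + 1) := tail_succ inv_c_abs inv_c_half k

theorem tau_nonneg (k : ℕ) : 0 ≤ tau k :=
  tail_nonneg (fun i => (one_div_pos.mpr (c_pos i)).le) k

theorem theta_ge (k : ℕ) : rho k / c k ^ 2 ≤ theta k := by
  rw [← c_div_succ, theta, tau_succ, div_eq_mul_one_div]
  have := tau_nonneg (k + 1 + 1)
  have h := c_pos k
  nlinarith

theorem theta_le (k : ℕ) : theta k ≤ 2 * (rho k / c k ^ 2) := by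
  rw [← c_div_succ, theta, div_eq_mul_one_div]
  have h1 := abs_tail_le inv_c_abs inv_c_half (k + 1)
  have h2 : tau (k + 1) ≤ 2 * (1 / c (k + 1)) := (le_abs_self _).trans h1
  have h := c_pos k
  nlinarith

theorem theta_pos (k : ℕ) : 0 < theta k :=
  lt_of_lt_of_le (div_pos (rho_pos k) (pow_pos (c_pos k) 2)) (theta_ge k)

theorem c_beta (k : ℕ) : ∃ z : ℤ, c k * beta - theta k = z := by
  induction k with
  | zero =>
    refine ⟨1, ?_⟩
    have := c_pos 0
    rw [beta, theta, tau_succ 0]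
    field_simp
    ring
  | succ k ih =>
    obtain ⟨z, hz⟩ := ih
    refine ⟨(cN k : ℤ) ^ 2 * (k + 300) * z + 1, ?_⟩
    have h1 := c_pos (k + 1)
    have h2 : c (k + 1) * tau (k + 1) = 1 + theta (k + 1) := by
      rw [theta, tau_succ (k + 1)]
      field_simp
    have h3 : c (k + 1) = c k ^ 2 * ((k : ℝ) + 300) * c k := by rw [c_succ]; ring
    have h4 : (cN k : ℝ) = c k := rfl
    push_cast
    rw [h4, ← hz, theta] at *
    rw [theta]
    linear_combination (beta - tau (k + 1)) * h3 + h2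

theorem theta_abs (i : ℕ) : |theta i| ≤ theta i := by rw [abs_of_pos (theta_pos i)]

theorem rc_half (k : ℕ) : 4 * (rho (k + 1) / c (k + 1) ^ 2) ≤ rho k / c k ^ 2 := by
  have h1 := rho_succ_le k
  have h2 := c_succ_ge' k
  have h3 := c_pos k
  have h4 := rho_pos (k + 1)
  have h5 := c_pos (k + 1)
  rw [← mul_div_assoc, div_le_div_iff₀ (by positivity) (by positivity)]
  have h6 : 4 * c k ^ 2 ≤ c (k + 1) ^ 2 := by nlinarith
  nlinarith [mul_le_mul h1 h6 (by positivity) (rho_pos k).le]

theorem theta_half (i : ℕ) : theta (i + 1) ≤ theta i / 2 := by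
  have := theta_le (i + 1)
  have := theta_ge i
  have := rc_half i
  linarith

/-! ### The number alpha -/

/-- Tails of the series of the `theta`. -/
noncomputable def sig (k : ℕ) : ℝ := tail theta k

/-- The first coordinate of the matrix. -/
noncomputable def alpha : ℝ := -sig 0

/-- Partial sums of the scales. -/
def bN : ℕ → ℕ
  | 0 => cN 0
  | k + 1 => bN k + cN (k + 1)

/-- Partial sums of the scales, as real numbers. -/
noncomputable def b (k : ℕ) : ℝ := bN k

theorem b_succ (k : ℕ) : b (k + 1) = b k + c (k + 1) := by simp [b, bN, c]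

theorem b_bounds (k : ℕ) : c k ≤ b k ∧ b k ≤ 2 * c k := by
  induction k with
  | zero =>
    have : b 0 = c 0 := rfl
    have h := c_pos 0
    constructor <;> linarith
  | succ k ih =>
    rw [b_succ]
    have h := c_succ_ge' k
    have h2 := c_pos k
    constructor <;> linarith [ih.1, ih.2]

theorem sig_succ (k : ℕ) : sig k = theta k + sig (k + 1) := tail_succ theta_abs theta_half k

theorem sig_nonneg (k : ℕ) : 0 ≤ sig k := tail_nonneg (fun i => (theta_pos i).le) k

theorem sig_le (k : ℕ) : sig k ≤ 4 * (rho k / c k ^ 2) := by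
  have h1 := abs_tail_le theta_abs theta_half k
  have h2 : sig k ≤ 2 * theta k := (le_abs_self _).trans h1
  linarith [theta_le k]

theorem form_int (k : ℕ) : ∃ z : ℤ, alpha + b k * beta + sig (k + 1) = z := by
  induction k with
  | zero =>
    obtain ⟨z, hz⟩ := c_beta 0
    refine ⟨z, ?_⟩
    have : b 0 = c 0 := rfl
    rw [alpha, sig_succ 0, this, ← hz]
    ring
  | succ k ih =>
    obtain ⟨z, hz⟩ := ih
    obtain ⟨w, hw⟩ := c_beta (k + 1)
    refine ⟨z + w, ?_⟩
    push_cast
    rw [b_succ, ← hz, ← hw, sig_succ (k + 1)]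
    ring

/-- Minus the fractional part of `c k * alpha`. -/
noncomputable def a (k : ℕ) : ℝ := b k * theta k + c k * sig (k + 1)

theorem c_alpha (k : ℕ) : ∃ z : ℤ, c k * alpha + a k = z := by
  obtain ⟨z, hz⟩ := form_int k
  obtain ⟨w, hw⟩ := c_beta k
  refine ⟨cN k * z - bN k * w, ?_⟩
  have h4 : (cN k : ℝ) = c k := rfl
  have h5 : (bN k : ℝ) = b k := rfl
  push_cast
  rw [h4, h5, ← hz, ← hw, a]
  ring

theorem a_ge (k : ℕ) : rho k / c k ≤ a k := by
  have h1 := theta_ge k
  have h2 := (b_bounds k).1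
  have h3 := c_pos k
  have h4 := sig_nonneg (k + 1)
  have h5 := theta_pos k
  have h6 : rho k / c k = c k * (rho k / c k ^ 2) := by field_simp
  rw [a, h6]
  nlinarith [mul_le_mul_of_nonneg_left h1 h3.le, mul_le_mul_of_nonneg_right h2 h5.le,
    mul_nonneg h3.le h4]

theorem a_le (k : ℕ) : a k ≤ 5 * (rho k / c k) := by
  have h1 := theta_le k
  have h2 := (b_bounds k).2
  have h3 := c_pos k
  have h4 := sig_le (k + 1)
  have h5 := theta_pos k
  have h7 := rc_half k
  have h6 : rho k / c k = c k * (rho k / c k ^ 2) := by field_simp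
  have h8 : sig (k + 1) ≤ rho k / c k ^ 2 := by linarith
  rw [a, h6]
  nlinarith [mul_le_mul_of_nonneg_left h1 h3.le, mul_le_mul_of_nonneg_right h2 h5.le,
    mul_le_mul_of_nonneg_left h8 h3.le]

theorem a_pos (k : ℕ) : 0 < a k := lt_of_lt_of_le (div_pos (rho_pos k) (c_pos k)) (a_ge k)

/-! ### The sweeping targets -/

/-- The phase of the sweep. -/
noncomputable def ph (k : ℕ) : ℝ := Real.log (((k : ℝ) + 300) / 300)

/-- The sweeping target. -/
noncomputable def t (k : ℕ) : ℝ := Real.sin (ph k) / 8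

theorem ph_step (k : ℕ) : ph k ≤ ph (k + 1) ∧ ph (k + 1) - ph k ≤ rho k := by
  have hk : (0 : ℝ) ≤ k := Nat.cast_nonneg k
  unfold ph rho
  push_cast
  constructor
  · exact Real.log_le_log (by positivity) (by linarith)
  · rw [← Real.log_div (by positivity) (by positivity)]
    refine (Real.log_le_sub_one_of_pos (by positivity)).trans (le_of_eq ?_)
    field_simp
    ring

theorem t_zero : t 0 = 0 := by simp [t, ph]

theorem abs_t_le (k : ℕ) : |t k| ≤ 1 / 8 := by
  rw [t, abs_div, abs_of_pos (by norm_num : (0 : ℝ) < 8)]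
  have := Real.abs_sin_le_one (ph k)
  linarith

theorem t_step (k : ℕ) : |t k - t (k + 1)| ≤ rho k := by
  have h := Real.abs_sin_sub_sin_le (ph k) (ph (k + 1))
  obtain ⟨h1, h2⟩ := ph_step k
  have h3 : |ph k - ph (k + 1)| ≤ rho k := by rw [abs_sub_comm, abs_of_nonneg (by linarith)]; exact h2
  have h4 := rho_pos k
  rw [t, t, ← sub_div, abs_div, abs_of_pos (by norm_num : (0 : ℝ) < 8)]
  linarith

theorem t_sweep {X : ℝ} (hX : |X| ≤ 1 / 8) (N : ℕ) : ∃ k, N ≤ k ∧ |t k - X| ≤ rho k := by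
  have hX1 : -1 ≤ 8 * X := by linarith [(abs_le.mp hX).1]
  have hX2 : 8 * X ≤ 1 := by linarith [(abs_le.mp hX).2]
  set s : ℝ := Real.arcsin (8 * X) + ((N + 1 : ℕ) : ℝ) * (2 * Real.pi) with hs
  have hsin : Real.sin s = 8 * X := by
    rw [hs, Real.sin_add_nat_mul_two_pi, Real.sin_arcsin hX1 hX2]
  have hN : (0 : ℝ) ≤ N := Nat.cast_nonneg N
  have hpi := Real.pi_gt_three
  have hs1 : (N : ℝ) ≤ s := by
    have := Real.neg_pi_div_two_le_arcsin (8 * X)
    rw [hs]
    push_cast
    nlinarith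
  have he : (N : ℝ) + 1 ≤ Real.exp s := by linarith [Real.add_one_le_exp s]
  have hy : (0 : ℝ) ≤ 300 * Real.exp s - 300 := by linarith
  refine ⟨⌊300 * Real.exp s - 300⌋₊, ?_, ?_⟩
  · apply Nat.le_floor
    linarith
  · set k := ⌊300 * Real.exp s - 300⌋₊ with hk
    have h1 : (k : ℝ) ≤ 300 * Real.exp s - 300 := Nat.floor_le hy
    have h2 : 300 * Real.exp s - 300 < k + 1 := Nat.lt_floor_add_one _
    have hk0 : (0 : ℝ) ≤ k := Nat.cast_nonneg k
    have h3 : ph k ≤ s := by
      rw [ph, Real.log_le_iff_le_exp (by positivity)]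
      linarith
    have h4 : s ≤ ph (k + 1) := by
      rw [ph, Real.le_log_iff_exp_le (by positivity)]
      push_cast
      linarith
    have h5 := (ph_step k).2
    have h := Real.abs_sin_sub_sin_le (ph k) s
    have h6 : |ph k - s| ≤ rho k := by rw [abs_sub_comm, abs_of_nonneg (by linarith)]; linarith
    have h7 := rho_pos k
    have h8 : t k - X = (Real.sin (ph k) - Real.sin s) / 8 := by rw [t, hsin]; ring
    rw [h8, abs_div, abs_of_pos (by norm_num : (0 : ℝ) < 8)]
    linarith

/-! ### The centres -/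

/-- The centres. -/
noncomputable def X : ℕ → ℝ
  | 0 => 0
  | k + 1 => X k - (round ((X k - t (k + 1)) / a k) : ℤ) * a k

/-- The digits. -/
noncomputable def J (k : ℕ) : ℤ := round ((X k - t (k + 1)) / a k)

theorem X_succ (k : ℕ) : X (k + 1) = X k - J k * a k := rfl

theorem X_near (k : ℕ) : |X k - t k| ≤ rho k := by
  cases k with
  | zero => simp [X, t_zero, (rho_pos 0).le]
  | succ k =>
    have h1 := abs_sub_round ((X k - t (k + 1)) / a k)
    have h2 := a_pos k
    have h3 : X (k + 1) - t (k + 1) = ((X k - t (k + 1)) / a k - J k) * a k := by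
      rw [X_succ]
      field_simp
      ring
    rw [h3, abs_mul, abs_of_pos h2]
    have h4 : |(X k - t (k + 1)) / a k - J k| * a k ≤ 1 / 2 * a k :=
      mul_le_mul_of_nonneg_right h1 h2.le
    have h5 := a_le k
    have h6 : rho k / c k ≤ rho k / 10 :=
      div_le_div_of_nonneg_left (rho_pos k).le (by norm_num) (c_ten k)
    have h7 := rho_le_two k
    have h8 := rho_pos (k + 1)
    linarith

theorem div_a_le {y : ℝ} (k : ℕ) (hy : |y| ≤ 2 * rho k) : |y / a k| ≤ 2 * c k := by
  have h2 := a_pos k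
  have h3 := a_ge k
  have h4 := c_pos k
  rw [abs_div, abs_of_pos h2, div_le_iff₀ h2]
  rw [div_le_iff₀ h4] at h3
  nlinarith

theorem J_le (k : ℕ) : |(J k : ℝ)| ≤ 3 * c k := by
  have h1 := abs_sub_round ((X k - t (k + 1)) / a k)
  have h2 : |X k - t (k + 1)| ≤ 2 * rho k := by
    have := abs_sub_le (X k) (t k) (t (k + 1))
    linarith [X_near k, t_step k]
  have h3 := div_a_le k h2
  have h4 := c_ten k
  have h5 := abs_sub_abs_le_abs_sub (J k : ℝ) ((X k - t (k + 1)) / a k)
  rw [abs_sub_comm] at h5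
  unfold J at *
  linarith

theorem j_theta {j : ℝ} (k : ℕ) (hj : |j| ≤ 3 * c k) : |j * theta k| ≤ 6 * (rho k / c k) := by
  have h1 := theta_le k
  have h3 := c_pos k
  have h5 := theta_pos k
  have h6 : rho k / c k = c k * (rho k / c k ^ 2) := by field_simp
  rw [abs_mul, abs_of_pos h5, h6]
  nlinarith [mul_le_mul_of_nonneg_left h1 h3.le, mul_le_mul_of_nonneg_right hj h5.le]

theorem g_half (k : ℕ) : 6 * (rho (k + 1) / c (k + 1)) ≤ 6 * (rho k / c k) / 2 := by
  have h1 := rho_succ_le k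
  have h2 := c_succ_ge' k
  have h3 := c_pos k
  have h4 := rho_pos (k + 1)
  have h5 := c_pos (k + 1)
  have h6 : 2 * (rho (k + 1) / c (k + 1)) ≤ rho k / c k := by
    rw [← mul_div_assoc, div_le_div_iff₀ h5 h3]
    nlinarith [mul_le_mul h1 h2 (by positivity) (rho_pos k).le]
  linarith

/-- Tails of the series defining the height of the coset. -/
noncomputable def xi (k : ℕ) : ℝ := tail (fun i => (J i : ℝ) * theta i) k

/-- The height of the coset. -/
noncomputable def ht : ℝ := xi 0

theorem xi_succ (k : ℕ) : xi k = J k * theta k + xi (k + 1) :=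
  tail_succ (g := fun i => 6 * (rho i / c i)) (fun i => j_theta i (J_le i)) g_half k

theorem abs_xi_le (k : ℕ) : |xi k| ≤ 12 * (rho k / c k) := by
  have := abs_tail_le (h := fun i => (J i : ℝ) * theta i) (g := fun i => 6 * (rho i / c i))
    (fun i => j_theta i (J_le i)) g_half k
  unfold xi
  linarith

/-- The base multipliers. -/
noncomputable def p : ℕ → ℤ
  | 0 => 0
  | k + 1 => p k + J k * cN k

theorem p_succ (k : ℕ) : (p (k + 1) : ℝ) = p k + J k * c k := by simp [p, c]

theorem abs_p_le (k : ℕ) : |(p k : ℝ)| ≤ c k / 2 := by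
  induction k with
  | zero => simp [p]; linarith [c_ten 0]
  | succ k ih =>
    rw [p_succ]
    have h1 := J_le k
    have h2 := c_succ_ge k
    have h3 := c_ten k
    have h4 : |(J k : ℝ) * c k| ≤ 3 * c k ^ 2 := by
      rw [abs_mul, abs_of_pos (c_pos k)]
      nlinarith
    have h5 := abs_add_le (p k : ℝ) (J k * c k)
    nlinarith

theorem p_alpha (k : ℕ) : ∃ z : ℤ, p k * alpha - X k = z := by
  induction k with
  | zero => exact ⟨0, by simp [p, X]⟩
  | succ k ih =>
    obtain ⟨z, hz⟩ := ih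
    obtain ⟨w, hw⟩ := c_alpha k
    refine ⟨z + J k * w, ?_⟩
    push_cast
    rw [p_succ, X_succ, ← hz, ← hw]
    ring

theorem p_beta (k : ℕ) : ∃ z : ℤ, p k * beta - ht + xi k = z := by
  induction k with
  | zero => exact ⟨0, by simp [p, ht]⟩
  | succ k ih =>
    obtain ⟨z, hz⟩ := ih
    obtain ⟨w, hw⟩ := c_beta k
    refine ⟨z + J k * w, ?_⟩
    push_cast
    rw [p_succ, ← hz, ← hw, xi_succ k]
    ring

end Pool.Agent.P.MP_39ae23_nt
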