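import Mathlib
import Pool.Agent.P.MP_39ae23_nt.Seq

set_option autoImplicit false

open Filter Topology

namespace Pool.Agent.P.MP_39ae23_nt

theorem norm_coe_le {r e : ℝ} {z : ℤ} (h : r = e + z) : ‖(r : UnitAddCircle)‖ ≤ |e| := by
  rw [UnitAddCircle.norm_eq]
  refine (round_le r z).trans (le_of_eq ?_)
  rw [h]
  congr 1
  ring

theorem exists_rep (r : ℝ) : ∃ (e : ℝ) (z : ℤ), r = e + z ∧ |e| = ‖(r : UnitAddCircle)‖ :=
  ⟨r - round r, round r, by ring, by rw [UnitAddCircle.norm_eq]⟩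

/-- Points of the arc around `0` are well approximable. -/
theorem well_approx {Y : ℝ} (hY : |Y| ≤ 1 / 8) {ε : ℝ} (hε : 0 < ε) (N : ℝ) :
    ∃ q : ℤ, N ≤ |(q : ℝ)| ∧
      √|(q : ℝ)| * max ‖((alpha * q - Y : ℝ) : UnitAddCircle)‖
        ‖((beta * q - ht : ℝ) : UnitAddCircle)‖ < ε := by
  obtain ⟨N1, hN1⟩ := exists_nat_ge (2 * N)
  obtain ⟨N2, hN2⟩ := exists_nat_ge (36 / ε)
  obtain ⟨k, hk, hkY⟩ := t_sweep hY (N1 + N2)
  have hk' : (N1 : ℝ) + N2 ≤ k := by exact_mod_cast hk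
  have hN10 : (0 : ℝ) ≤ N1 := Nat.cast_nonneg _
  have hN20 : (0 : ℝ) ≤ N2 := Nat.cast_nonneg _
  set s : ℝ := (X k - Y) / a k with hs
  set j : ℤ := 2 * ⌊s / 2⌋ + 1 with hj
  have hj0 : j ≠ 0 := by omega
  have hj1 : (1 : ℝ) ≤ |(j : ℝ)| := by
    have : (1 : ℤ) ≤ |j| := Int.one_le_abs hj0
    exact_mod_cast this
  have hjs : |s - j| ≤ 1 := by
    have h1 := Int.floor_le (s / 2)
    have h2 := Int.lt_floor_add_one (s / 2)
    rw [hj, abs_le]
    push_cast
    constructor <;> linarith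
  have hXY : |X k - Y| ≤ 2 * rho k := by
    have := abs_sub_le (X k) (t k) Y
    linarith [X_near k]
  have hs2 : |s| ≤ 2 * c k := div_a_le k hXY
  have hc := c_ten k
  have hc0 := c_pos k
  have hj3 : |(j : ℝ)| ≤ 3 * c k := by
    have h5 := abs_sub_abs_le_abs_sub (j : ℝ) s
    rw [abs_sub_comm] at h5
    linarith
  have hp := abs_p_le k
  have hq : ((p k + j * cN k : ℤ) : ℝ) = p k + j * c k := by simp [c]
  have hjc : |(j : ℝ) * c k| = |(j : ℝ)| * c k := by rw [abs_mul, abs_of_pos hc0]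
  refine ⟨p k + j * cN k, ?_, ?_⟩
  · rw [hq]
    have h1 := abs_sub_abs_le_abs_sub ((j : ℝ) * c k) (-(p k : ℝ))
    rw [abs_neg, sub_neg_eq_add, add_comm, hjc] at h1
    have h2 := c_ge k
    nlinarith
  · rw [hq]
    have hq2 : |(p k : ℝ) + j * c k| ≤ (2 * c k) ^ 2 := by
      have h1 := abs_add_le (p k : ℝ) (j * c k)
      rw [hjc] at h1
      nlinarith
    have hsq : √|(p k : ℝ) + j * c k| ≤ 2 * c k := by
      rw [Real.sqrt_le_left (by positivity)]
      exact hq2
    have hrc : 0 < rho k / c k := div_pos (rho_pos k) hc0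
    have e1 : ‖((alpha * (p k + j * c k) - Y : ℝ) : UnitAddCircle)‖ ≤ 18 * (rho k / c k) := by
      obtain ⟨z, hz⟩ := p_alpha k
      obtain ⟨w, hw⟩ := c_alpha k
      have ha := a_pos k
      have h1 : alpha * (p k + j * c k) - Y = (s - j) * a k + ((z + j * w : ℤ) : ℝ) := by
        push_cast
        rw [← hz, ← hw, hs]
        field_simp
        ring
      refine (norm_coe_le h1).trans ?_
      rw [abs_mul, abs_of_pos ha]
      have := a_le k
      nlinarith
    have e2 : ‖((beta * (p k + j * c k) - ht : ℝ) : UnitAddCircle)‖ ≤ 18 * (rho k / c k) := by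
      obtain ⟨z, hz⟩ := p_beta k
      obtain ⟨w, hw⟩ := c_beta k
      have h1 : beta * (p k + j * c k) - ht = (j * theta k - xi k) + ((z + j * w : ℤ) : ℝ) := by
        push_cast
        rw [← hz, ← hw]
        ring
      refine (norm_coe_le h1).trans ?_
      have h2 := abs_sub ((j : ℝ) * theta k) (xi k)
      linarith [j_theta k hj3, abs_xi_le k]
    have e3 := max_le e1 e2
    have e4 : 2 * c k * (18 * (rho k / c k)) = 36 * rho k := by field_simp; ring
    have e5 : 36 * rho k < ε := by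
      unfold rho
      rw [div_le_iff₀ hε] at hN2
      rw [mul_one_div, div_lt_iff₀ (by linarith)]
      nlinarith
    calc _ ≤ 2 * c k * (18 * (rho k / c k)) :=
          mul_le_mul hsq e3 (le_max_of_le_left (norm_nonneg _)) (by positivity)
      _ < ε := by rw [e4]; exact e5

theorem exists_scale {r : ℝ} (hr : 100 ≤ r) : ∃ k, c k ^ 2 ≤ r ∧ r < c (k + 1) ^ 2 := by
  classical
  have hex : ∃ k, r < c (k + 1) ^ 2 := by
    obtain ⟨N, hN⟩ := exists_nat_ge r
    refine ⟨N, ?_⟩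
    have h1 := c_ge (N + 1)
    have h2 := c_ten (N + 1)
    push_cast at h1
    nlinarith
  refine ⟨Nat.find hex, ?_, Nat.find_spec hex⟩
  rcases h : Nat.find hex with _ | k
  · have : c 0 = 10 := by simp [c, cN]
    rw [this]
    linarith
  · have := Nat.find_min hex (m := k) (by omega)
    exact not_lt.mp this

/-- Points of the arc around `1 / 2` are badly approximable. -/
theorem bad_approx {Y : ℝ} (hY1 : 3 / 8 ≤ Y) (hY2 : Y ≤ 5 / 8) (q : ℤ) (hq : 100 ≤ |(q : ℝ)|) :
    1 / 24 ≤ √|(q : ℝ)| * max ‖((alpha * q - Y : ℝ) : UnitAddCircle)‖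
        ‖((beta * q - ht : ℝ) : UnitAddCircle)‖ := by
  obtain ⟨k, hk1, hk2⟩ := exists_scale hq
  obtain ⟨e1, z1, h1, he1⟩ := exists_rep (alpha * q - Y)
  obtain ⟨e2, z2, h2, he2⟩ := exists_rep (beta * q - ht)
  rw [← he1, ← he2]
  set r := max |e1| |e2| with hr
  have hr1 : |e1| ≤ r := le_max_left _ _
  have hr2 : |e2| ≤ r := le_max_right _ _
  have hr0 : 0 ≤ r := (abs_nonneg _).trans hr1
  obtain ⟨z3, h3⟩ := form_int k
  obtain ⟨z4, h4⟩ := p_alpha k
  obtain ⟨z5, h5⟩ := p_beta k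
  have hb : (bN k : ℝ) = b k := rfl
  have key : Y - X k - (((q - p k) * z3 - z1 + z4 - bN k * z2 + bN k * z5 : ℤ) : ℝ) =
      -((q - p k) * sig (k + 1)) - e1 - b k * e2 - b k * xi k := by
    push_cast
    rw [hb, ← h3, ← h4, ← h5]
    linear_combination (-1 : ℝ) * h1 - b k * h2
  set z : ℤ := (q - p k) * z3 - z1 + z4 - bN k * z2 + bN k * z5 with hz
  have hc := c_ten k
  have hc0 := c_pos k
  have hc1 := c_ten (k + 1)
  have hc1' := c_pos (k + 1)
  have hcc := c_succ_ge' k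
  have hrho := rho_le k
  have hrho0 := rho_pos k
  -- lower bound for the left side
  have hX : |X k| ≤ 1 / 8 + rho k := by
    have := abs_sub_abs_le_abs_sub (X k) (t k)
    linarith [X_near k, abs_t_le k]
  have hlow : 1 / 4 - rho k ≤ |Y - X k - z| := by
    obtain ⟨hX1, hX2⟩ := abs_le.mp hX
    rcases le_or_gt z 0 with h | h
    · have : (z : ℝ) ≤ 0 := by exact_mod_cast h
      exact le_trans (by linarith) (le_abs_self _)
    · have : (1 : ℝ) ≤ z := by exact_mod_cast h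
      exact le_trans (by linarith) (neg_le_abs _)
  -- upper bounds for the right side
  have u1 : |((q : ℝ) - p k) * sig (k + 1)| ≤ 8 * rho k := by
    have v1 : |(q : ℝ) - p k| ≤ 2 * c (k + 1) ^ 2 := by
      have := abs_sub (q : ℝ) (p k)
      have := abs_p_le k
      nlinarith
    have v2 := sig_le (k + 1)
    have v3 := sig_nonneg (k + 1)
    have v4 := rho_succ_le k
    rw [abs_mul, abs_of_nonneg v3]
    calc _ ≤ 2 * c (k + 1) ^ 2 * (4 * (rho (k + 1) / c (k + 1) ^ 2)) :=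
          mul_le_mul v1 v2 v3 (by positivity)
      _ = 8 * rho (k + 1) := by field_simp; ring
      _ ≤ 8 * rho k := by linarith
  obtain ⟨hb1, hb2⟩ := b_bounds k
  have hb0 : 0 < b k := by linarith
  have u2 : |b k * e2| ≤ 2 * c k * r := by
    rw [abs_mul, abs_of_pos hb0]
    exact mul_le_mul hb2 hr2 (abs_nonneg _) (by positivity)
  have u3 : |b k * xi k| ≤ 24 * rho k := by
    rw [abs_mul, abs_of_pos hb0]
    calc _ ≤ 2 * c k * (12 * (rho k / c k)) :=
          mul_le_mul hb2 (abs_xi_le k) (abs_nonneg _) (by positivity)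
      _ = 24 * rho k := by field_simp; ring
  have u4 : |Y - X k - z| ≤ 8 * rho k + r + 2 * c k * r + 24 * rho k := by
    rw [key]
    obtain ⟨a1, a2⟩ := abs_le.mp u1
    obtain ⟨a3, a4⟩ := abs_le.mp u2
    obtain ⟨a5, a6⟩ := abs_le.mp u3
    obtain ⟨a7, a8⟩ := abs_le.mp hr1
    rw [abs_le]
    constructor <;> linarith
  have u5 : 1 / 24 ≤ c k * r := by nlinarith
  have u6 : c k ≤ √|(q : ℝ)| := Real.le_sqrt_of_sq_le hk1
  exact u5.trans (mul_le_mul_of_nonneg_right u6 hr0)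

end Pool.Agent.P.MP_39ae23_nt
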