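import Mathlib

set_option autoImplicit false

namespace Pool.Agent.P.MP_39ae23_nt

/-- The targets on the torus that are badly approximable for the matrix `A`. -/
def Bad {m n : ℕ} (A : Matrix (Fin m) (Fin n) ℝ) : Set (Fin m → UnitAddCircle) :=
  {η | 0 < Filter.liminf
    (fun q : Fin n → ℤ =>
      ((‖q‖ ^ ((n : ℝ) / (m : ℝ)) *
        ‖(fun i : Fin m => ((∑ j : Fin n, A i j * (q j : ℝ) : ℝ) : UnitAddCircle)) - η‖ : ℝ) : EReal))
    (Filter.comap (fun q : Fin n → ℤ => ‖q‖) Filter.atTop)}

/-- Haar probability measures on cosets of closed connected subgroups of the torus. -/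
def IsAlgebraicMeasure {m : ℕ} (μ : MeasureTheory.Measure (Fin m → UnitAddCircle)) : Prop :=
  ∃ (x : Fin m → UnitAddCircle) (H : AddSubgroup (Fin m → UnitAddCircle))
    (ν : MeasureTheory.Measure H),
    IsClosed (H : Set (Fin m → UnitAddCircle)) ∧ IsConnected (H : Set (Fin m → UnitAddCircle)) ∧
      ν.IsAddHaarMeasure ∧ MeasureTheory.IsProbabilityMeasure ν ∧
      μ = ν.map (fun h : H => x + (h : Fin m → UnitAddCircle))

end Pool.Agent.P.MP_39ae23_nt
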