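import Mathlib
import Pool.Agent.P.MP_39ae23_nt.Defs
import Pool.Agent.P.MP_39ae23_nt.Core

set_option autoImplicit false

open Filter Topology MeasureTheory

namespace Pool.Agent.P.MP_39ae23_nt

/-- The quantity whose lower limit defines `Bad`. -/
noncomputable def qual {m n : ℕ} (A : Matrix (Fin m) (Fin n) ℝ) (η : Fin m → UnitAddCircle)
    (q : Fin n → ℤ) : ℝ :=
  ‖q‖ ^ ((n : ℝ) / (m : ℝ)) *
    ‖(fun i : Fin m => ((∑ j : Fin n, A i j * (q j : ℝ) : ℝ) : UnitAddCircle)) - η‖

theorem mem_Bad_iff {m n : ℕ} (A : Matrix (Fin m) (Fin n) ℝ) (η : Fin m → UnitAddCircle) :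
    η ∈ Bad A ↔ ∃ l N : ℕ, ∀ q : Fin n → ℤ, (N : ℝ) ≤ ‖q‖ → 1 / ((l : ℝ) + 1) ≤ qual A η q := by
  change 0 < Filter.liminf (fun q : Fin n → ℤ => ((qual A η q : ℝ) : EReal)) _ ↔ _
  constructor
  · intro h
    obtain ⟨r, hr0, hr⟩ := EReal.lt_iff_exists_real_btwn.mp h
    have hr0' : 0 < r := by exact_mod_cast hr0
    obtain ⟨l, hl⟩ := exists_nat_one_div_lt hr0'
    have hev := Filter.eventually_lt_of_lt_liminf hr
    rw [Filter.eventually_comap, Filter.eventually_atTop] at hev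
    obtain ⟨M, hM⟩ := hev
    obtain ⟨N, hN⟩ := exists_nat_ge M
    refine ⟨l, N, fun q hq => ?_⟩
    have := hM ‖q‖ (hN.trans hq) q rfl
    have h2 : r < qual A η q := by exact_mod_cast this
    linarith
  · rintro ⟨l, N, h⟩
    have h1 : (((1 / ((l : ℝ) + 1) : ℝ)) : EReal) ≤ Filter.liminf
        (fun q : Fin n → ℤ => ((qual A η q : ℝ) : EReal))
        (Filter.comap (fun q : Fin n → ℤ => ‖q‖) Filter.atTop) := by
      apply Filter.le_liminf_of_le
      · isBoundedDefault
      · rw [Filter.eventually_comap, Filter.eventually_atTop]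
        refine ⟨N, fun y hy q hq => ?_⟩
        have := h q (by rw [hq]; exact hy)
        exact_mod_cast this
    refine lt_of_lt_of_le ?_ h1
    have : (0 : ℝ) < 1 / ((l : ℝ) + 1) := by positivity
    exact_mod_cast this

theorem measurableSet_Bad {m n : ℕ} (A : Matrix (Fin m) (Fin n) ℝ) : MeasurableSet (Bad A) := by
  have : Bad A = ⋃ l : ℕ, ⋃ N : ℕ, ⋂ q : Fin n → ℤ,
      {η | (N : ℝ) ≤ ‖q‖ → 1 / ((l : ℝ) + 1) ≤ qual A η q} := by
    ext η
    simp only [mem_Bad_iff, Set.mem_iUnion, Set.mem_iInter, Set.mem_ofPred_eq]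
  rw [this]
  refine MeasurableSet.iUnion fun l => MeasurableSet.iUnion fun N => MeasurableSet.iInter fun q => ?_
  by_cases h : (N : ℝ) ≤ ‖q‖
  · simp only [h, forall_true_left]
    refine (isClosed_le continuous_const ?_).measurableSet
    unfold qual
    fun_prop
  · simp [h]

/-- The matrix of the counterexample. -/
noncomputable def A0 : Matrix (Fin 2) (Fin 1) ℝ := fun i _ => ![alpha, beta] i

theorem norm_fin_one (q : Fin 1 → ℤ) : ‖q‖ = |((q 0 : ℤ) : ℝ)| := by
  rw [Pi.norm_def]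
  simp [Int.norm_eq_abs]

theorem qual_A0 (η : Fin 2 → UnitAddCircle) (Y : ℝ) (h0 : η 0 = (Y : UnitAddCircle))
    (h1 : η 1 = (ht : UnitAddCircle)) (q : Fin 1 → ℤ) :
    qual A0 η q = √|((q 0 : ℤ) : ℝ)| * max ‖((alpha * (q 0 : ℤ) - Y : ℝ) : UnitAddCircle)‖
        ‖((beta * (q 0 : ℤ) - ht : ℝ) : UnitAddCircle)‖ := by
  unfold qual
  rw [norm_fin_one, Real.sqrt_eq_rpow]
  congr 1
  · norm_num
  · apply le_antisymm
    · refine (pi_norm_le_iff_of_nonneg (le_max_of_le_left (norm_nonneg _))).mpr fun i => ?_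
      fin_cases i
      · refine le_trans (le_of_eq ?_) (le_max_left _ _)
        simp [A0, h0]
      · refine le_trans (le_of_eq ?_) (le_max_right _ _)
        simp [A0, h1]
    · refine max_le ?_ ?_
      · refine le_trans (le_of_eq ?_) (norm_le_pi_norm _ 0)
        simp [A0, h0]
      · refine le_trans (le_of_eq ?_) (norm_le_pi_norm _ 1)
        simp [A0, h1]

theorem not_mem_Bad (η : Fin 2 → UnitAddCircle) (h0 : ‖η 0‖ < 1 / 8)
    (h1 : η 1 = (ht : UnitAddCircle)) : η ∉ Bad A0 := by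
  obtain ⟨Y', hY'⟩ := QuotientAddGroup.mk_surjective (η 0)
  obtain ⟨Y, z, hz, hY⟩ := exists_rep Y'
  have hη : η 0 = (Y : UnitAddCircle) := by
    rw [← hY', hz]
    simp
  have hY2 : |Y| ≤ 1 / 8 := by
    rw [hY]
    have : (Y' : UnitAddCircle) = η 0 := hY'
    rw [this]
    exact h0.le
  rw [mem_Bad_iff]
  rintro ⟨l, N, h⟩
  obtain ⟨q, hq1, hq2⟩ := well_approx hY2 (ε := 1 / ((l : ℝ) + 1)) (by positivity) N
  have := h (fun _ => q) (by rw [norm_fin_one]; exact hq1)
  rw [qual_A0 η Y hη h1] at this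
  exact absurd hq2 (not_lt.mpr this)

theorem mem_Bad (η : Fin 2 → UnitAddCircle) (h0 : ‖η 0 - ((1 / 2 : ℝ) : UnitAddCircle)‖ < 1 / 8)
    (h1 : η 1 = (ht : UnitAddCircle)) : η ∈ Bad A0 := by
  obtain ⟨Y', hY'⟩ := QuotientAddGroup.mk_surjective (η 0 - ((1 / 2 : ℝ) : UnitAddCircle))
  obtain ⟨Y, z, hz, hY⟩ := exists_rep Y'
  have hη : η 0 = ((Y + 1 / 2 : ℝ) : UnitAddCircle) := by
    have h2 : η 0 - ((1 / 2 : ℝ) : UnitAddCircle) = (Y : UnitAddCircle) := by
      rw [← hY', hz]
      simp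
    rw [AddCircle.coe_add, ← h2]
    simp
  have hY2 : |Y| ≤ 1 / 8 := by
    rw [hY]
    have : (Y' : UnitAddCircle) = η 0 - ((1 / 2 : ℝ) : UnitAddCircle) := hY'
    rw [this]
    exact h0.le
  obtain ⟨hY3, hY4⟩ := abs_le.mp hY2
  rw [mem_Bad_iff]
  refine ⟨23, 100, fun q hq => ?_⟩
  rw [qual_A0 η _ hη h1]
  rw [norm_fin_one] at hq
  have := bad_approx (Y := Y + 1 / 2) (by linarith) (by linarith) (q 0) (by exact_mod_cast hq)
  norm_num at this ⊢
  exact this

/-- The horizontal circle. -/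
def H0 : AddSubgroup (Fin 2 → UnitAddCircle) where
  carrier := {y | y 1 = 0}
  zero_mem' := rfl
  add_mem' := by
    intro a b ha hb
    simp only [Set.mem_ofPred_eq, Pi.add_apply] at *
    rw [ha, hb, add_zero]
  neg_mem' := by
    intro a ha
    simp only [Set.mem_ofPred_eq, Pi.neg_apply] at *
    rw [ha, neg_zero]

theorem H0_closed : IsClosed (H0 : Set (Fin 2 → UnitAddCircle)) :=
  isClosed_eq (continuous_apply 1) continuous_const

theorem H0_connected : IsConnected (H0 : Set (Fin 2 → UnitAddCircle)) := by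
  have : (H0 : Set (Fin 2 → UnitAddCircle)) =
      Set.range fun r : ℝ => (![(r : UnitAddCircle), 0] : Fin 2 → UnitAddCircle) := by
    ext y
    constructor
    · intro hy
      obtain ⟨r, hr⟩ := QuotientAddGroup.mk_surjective (y 0)
      refine ⟨r, ?_⟩
      have hy' : y 1 = 0 := hy
      funext i
      fin_cases i
      · simpa using hr
      · simpa using hy'.symm
    · rintro ⟨r, rfl⟩
      change (![(r : UnitAddCircle), 0] : Fin 2 → UnitAddCircle) 1 = 0
      simp
  rw [this]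
  refine isConnected_range ?_
  refine continuous_pi fun i => ?_
  fin_cases i
  · have hc : Continuous fun r : ℝ => (r : UnitAddCircle) := AddCircle.continuous_mk' 1
    simpa using hc
  · simpa using continuous_const

theorem main : ∃ (A : Matrix (Fin 2) (Fin 1) ℝ) (μ : Measure (Fin 2 → UnitAddCircle)),
    IsAlgebraicMeasure μ ∧ MeasurableSet (Bad A) ∧ 0 < μ (Bad A) ∧ μ (Bad A) < 1 := by
  have : CompactSpace H0 := isCompact_iff_compactSpace.mp H0_closed.isCompact
  let x : Fin 2 → UnitAddCircle := ![0, (ht : UnitAddCircle)]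
  let ν : Measure H0 := Measure.addHaarMeasure ⊤
  have hν : IsProbabilityMeasure ν := ⟨by
    have := Measure.addHaarMeasure_self (K₀ := (⊤ : TopologicalSpace.PositiveCompacts H0))
    simpa using this⟩
  have hmeas : Measurable fun h : H0 => x + (h : Fin 2 → UnitAddCircle) :=
    (continuous_const.add continuous_subtype_val).measurable
  have hx0 : ∀ h : H0, (x + (h : Fin 2 → UnitAddCircle)) 0 = (h : Fin 2 → UnitAddCircle) 0 := by
    intro h
    simp [x]
  have hx1 : ∀ h : H0, (x + (h : Fin 2 → UnitAddCircle)) 1 = (ht : UnitAddCircle) := by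
    intro h
    have : (h : Fin 2 → UnitAddCircle) 1 = 0 := h.2
    simp [x, this]
  have hc : Continuous fun h : H0 => (h : Fin 2 → UnitAddCircle) 0 :=
    (continuous_apply 0).comp continuous_subtype_val
  refine ⟨A0, ν.map fun h : H0 => x + (h : Fin 2 → UnitAddCircle),
    ⟨x, H0, ν, H0_closed, H0_connected, inferInstance, hν, rfl⟩, measurableSet_Bad _, ?_, ?_⟩
  · rw [Measure.map_apply hmeas (measurableSet_Bad _)]
    let U : Set H0 := {h | ‖(h : Fin 2 → UnitAddCircle) 0 - ((1 / 2 : ℝ) : UnitAddCircle)‖ < 1 / 8}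
    have hU : IsOpen U := isOpen_lt (hc.sub continuous_const).norm continuous_const
    have hne : U.Nonempty := by
      refine ⟨⟨![((1 / 2 : ℝ) : UnitAddCircle), 0], ?_⟩, ?_⟩
      · change (![((1 / 2 : ℝ) : UnitAddCircle), 0] : Fin 2 → UnitAddCircle) 1 = 0
        simp
      · simp [U]
    refine lt_of_lt_of_le (hU.measure_pos ν hne) (measure_mono fun h hh => ?_)
    exact mem_Bad (x + (h : Fin 2 → UnitAddCircle)) (by rw [hx0]; exact hh) (hx1 h)
  · rw [Measure.map_apply hmeas (measurableSet_Bad _)]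
    let V : Set H0 := {h | ‖(h : Fin 2 → UnitAddCircle) 0‖ < 1 / 8}
    have hV : IsOpen V := isOpen_lt hc.norm continuous_const
    have hne : V.Nonempty := ⟨0, by simp [V]⟩
    have hpos := hV.measure_pos ν hne
    have hsub : (fun h : H0 => x + (h : Fin 2 → UnitAddCircle)) ⁻¹' Bad A0 ⊆ Vᶜ := fun h hh hv =>
      not_mem_Bad _ (by rw [hx0]; exact hv) (hx1 h) hh
    refine lt_of_le_of_lt (measure_mono hsub) ?_
    rw [prob_compl_eq_one_sub hV.measurableSet]
    exact ENNReal.sub_lt_self ENNReal.one_ne_top one_ne_zero hpos.ne'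

end Pool.Agent.P.MP_39ae23_nt
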