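import Mathlib
import Pool.Agent.P.MP_39ae23_nt.Main

/-! The construction of `Seq`, `Core` and `Main` for an arbitrary slowly moving target. -/

set_option autoImplicit false

open Filter Topology MeasureTheory

namespace Pool.Agent.P.MP_39ae23_nt.AV

/-- Targets that start at zero and move slowly. -/
structure Slow (T : ℕ → ℝ) : Prop where
  zero : T 0 = 0
  step : ∀ k, |T k - T (k + 1)| ≤ rho k

/-- The centres. -/
noncomputable def X (T : ℕ → ℝ) : ℕ → ℝ
  | 0 => 0
  | k + 1 => X T k - (round ((X T k - T (k + 1)) / a k) : ℤ) * a k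

/-- The digits. -/
noncomputable def J (T : ℕ → ℝ) (k : ℕ) : ℤ := round ((X T k - T (k + 1)) / a k)

/-- Tails of the series defining the height of the coset. -/
noncomputable def xi (T : ℕ → ℝ) (k : ℕ) : ℝ := tail (fun i => (J T i : ℝ) * theta i) k

/-- The height of the coset. -/
noncomputable def ht (T : ℕ → ℝ) : ℝ := xi T 0

/-- The base multipliers. -/
noncomputable def p (T : ℕ → ℝ) : ℕ → ℤ
  | 0 => 0
  | k + 1 => p T k + J T k * cN k

variable {T : ℕ → ℝ}

theorem X_succ (T : ℕ → ℝ) (k : ℕ) : X T (k + 1) = X T k - J T k * a k := rfl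

theorem X_near (hT : Slow T) (k : ℕ) : |X T k - T k| ≤ rho k := by
  cases k with
  | zero => simp [X, hT.zero, (rho_pos 0).le]
  | succ k =>
    have h1 := abs_sub_round ((X T k - T (k + 1)) / a k)
    have h2 := a_pos k
    have h3 : X T (k + 1) - T (k + 1) = ((X T k - T (k + 1)) / a k - J T k) * a k := by
      rw [X_succ]
      field_simp
      ring
    rw [h3, abs_mul, abs_of_pos h2]
    have h4 : |(X T k - T (k + 1)) / a k - J T k| * a k ≤ 1 / 2 * a k :=
      mul_le_mul_of_nonneg_right h1 h2.le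
    have h5 := a_le k
    have h6 : rho k / c k ≤ rho k / 10 :=
      div_le_div_of_nonneg_left (rho_pos k).le (by norm_num) (c_ten k)
    have h7 := rho_le_two k
    have h8 := rho_pos (k + 1)
    linarith

theorem J_le (hT : Slow T) (k : ℕ) : |(J T k : ℝ)| ≤ 3 * c k := by
  have h1 := abs_sub_round ((X T k - T (k + 1)) / a k)
  have h2 : |X T k - T (k + 1)| ≤ 2 * rho k := by
    have := abs_sub_le (X T k) (T k) (T (k + 1))
    linarith [X_near hT k, hT.step k]
  have h3 := div_a_le k h2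
  have h4 := c_ten k
  have h5 := abs_sub_abs_le_abs_sub (J T k : ℝ) ((X T k - T (k + 1)) / a k)
  rw [abs_sub_comm] at h5
  unfold J at *
  linarith

theorem xi_succ (hT : Slow T) (k : ℕ) : xi T k = J T k * theta k + xi T (k + 1) :=
  tail_succ (g := fun i => 6 * (rho i / c i)) (fun i => j_theta i (J_le hT i)) g_half k

theorem abs_xi_le (hT : Slow T) (k : ℕ) : |xi T k| ≤ 12 * (rho k / c k) := by
  have := abs_tail_le (h := fun i => (J T i : ℝ) * theta i) (g := fun i => 6 * (rho i / c i))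
    (fun i => j_theta i (J_le hT i)) g_half k
  unfold xi
  linarith

theorem p_succ (T : ℕ → ℝ) (k : ℕ) : (p T (k + 1) : ℝ) = p T k + J T k * c k := by simp [p, c]

theorem abs_p_le (hT : Slow T) (k : ℕ) : |(p T k : ℝ)| ≤ c k / 2 := by
  induction k with
  | zero => simp [p]; linarith [c_ten 0]
  | succ k ih =>
    rw [p_succ]
    have h1 := J_le hT k
    have h2 := c_succ_ge k
    have h3 := c_ten k
    have h4 : |(J T k : ℝ) * c k| ≤ 3 * c k ^ 2 := by
      rw [abs_mul, abs_of_pos (c_pos k)]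
      nlinarith
    have h5 := abs_add_le (p T k : ℝ) (J T k * c k)
    nlinarith

theorem p_alpha (T : ℕ → ℝ) (k : ℕ) : ∃ z : ℤ, p T k * alpha - X T k = z := by
  induction k with
  | zero => exact ⟨0, by simp [p, X]⟩
  | succ k ih =>
    obtain ⟨z, hz⟩ := ih
    obtain ⟨w, hw⟩ := c_alpha k
    refine ⟨z + J T k * w, ?_⟩
    push_cast
    rw [p_succ, X_succ, ← hz, ← hw]
    ring

theorem p_beta (hT : Slow T) (k : ℕ) : ∃ z : ℤ, p T k * beta - ht T + xi T k = z := by
  induction k with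
  | zero => exact ⟨0, by simp [p, ht]⟩
  | succ k ih =>
    obtain ⟨z, hz⟩ := ih
    obtain ⟨w, hw⟩ := c_beta k
    refine ⟨z + J T k * w, ?_⟩
    push_cast
    rw [p_succ, ← hz, ← hw, xi_succ hT k]
    ring

/-- Points that the target visits again and again are well approximable. -/
theorem well_approx (hT : Slow T) {Y : ℝ} (hY : ∀ N, ∃ k, N ≤ k ∧ |T k - Y| ≤ rho k) {ε : ℝ}
    (hε : 0 < ε) (N : ℝ) :
    ∃ q : ℤ, N ≤ |(q : ℝ)| ∧
      √|(q : ℝ)| * max ‖((alpha * q - Y : ℝ) : UnitAddCircle)‖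
        ‖((beta * q - ht T : ℝ) : UnitAddCircle)‖ < ε := by
  obtain ⟨N1, hN1⟩ := exists_nat_ge (2 * N)
  obtain ⟨N2, hN2⟩ := exists_nat_ge (36 / ε)
  obtain ⟨k, hk, hkY⟩ := hY (N1 + N2)
  have hk' : (N1 : ℝ) + N2 ≤ k := by exact_mod_cast hk
  have hN10 : (0 : ℝ) ≤ N1 := Nat.cast_nonneg _
  have hN20 : (0 : ℝ) ≤ N2 := Nat.cast_nonneg _
  set s : ℝ := (X T k - Y) / a k with hs
  set j : ℤ := 2 * ⌊s / 2⌋ + 1 with hj
  have hj0 : j ≠ 0 := by omega
  have hj1 : (1 : ℝ) ≤ |(j : ℝ)| := by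
    have : (1 : ℤ) ≤ |j| := Int.one_le_abs hj0
    exact_mod_cast this
  have hjs : |s - j| ≤ 1 := by
    have h1 := Int.floor_le (s / 2)
    have h2 := Int.lt_floor_add_one (s / 2)
    rw [hj, abs_le]
    push_cast
    constructor <;> linarith
  have hXY : |X T k - Y| ≤ 2 * rho k := by
    have := abs_sub_le (X T k) (T k) Y
    linarith [X_near hT k]
  have hs2 : |s| ≤ 2 * c k := div_a_le k hXY
  have hc := c_ten k
  have hc0 := c_pos k
  have hj3 : |(j : ℝ)| ≤ 3 * c k := by
    have h5 := abs_sub_abs_le_abs_sub (j : ℝ) s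
    rw [abs_sub_comm] at h5
    linarith
  have hp := abs_p_le hT k
  have hq : ((p T k + j * cN k : ℤ) : ℝ) = p T k + j * c k := by simp [c]
  have hjc : |(j : ℝ) * c k| = |(j : ℝ)| * c k := by rw [abs_mul, abs_of_pos hc0]
  refine ⟨p T k + j * cN k, ?_, ?_⟩
  · rw [hq]
    have h1 := abs_sub_abs_le_abs_sub ((j : ℝ) * c k) (-(p T k : ℝ))
    rw [abs_neg, sub_neg_eq_add, add_comm, hjc] at h1
    have h2 := c_ge k
    nlinarith
  · rw [hq]
    have hq2 : |(p T k : ℝ) + j * c k| ≤ (2 * c k) ^ 2 := by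
      have h1 := abs_add_le (p T k : ℝ) (j * c k)
      rw [hjc] at h1
      nlinarith
    have hsq : √|(p T k : ℝ) + j * c k| ≤ 2 * c k := by
      rw [Real.sqrt_le_left (by positivity)]
      exact hq2
    have hrc : 0 < rho k / c k := div_pos (rho_pos k) hc0
    have e1 : ‖((alpha * (p T k + j * c k) - Y : ℝ) : UnitAddCircle)‖ ≤ 18 * (rho k / c k) := by
      obtain ⟨z, hz⟩ := p_alpha T k
      obtain ⟨w, hw⟩ := c_alpha k
      have ha := a_pos k
      have h1 : alpha * (p T k + j * c k) - Y = (s - j) * a k + ((z + j * w : ℤ) : ℝ) := by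
        push_cast
        rw [← hz, ← hw, hs]
        field_simp
        ring
      refine (norm_coe_le h1).trans ?_
      rw [abs_mul, abs_of_pos ha]
      have := a_le k
      nlinarith
    have e2 : ‖((beta * (p T k + j * c k) - ht T : ℝ) : UnitAddCircle)‖ ≤ 18 * (rho k / c k) := by
      obtain ⟨z, hz⟩ := p_beta hT k
      obtain ⟨w, hw⟩ := c_beta k
      have h1 : beta * (p T k + j * c k) - ht T = (j * theta k - xi T k) + ((z + j * w : ℤ) : ℝ) := by
        push_cast
        rw [← hz, ← hw]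
        ring
      refine (norm_coe_le h1).trans ?_
      have h2 := abs_sub ((j : ℝ) * theta k) (xi T k)
      linarith [j_theta k hj3, abs_xi_le hT k]
    have e3 := max_le e1 e2
    have e4 : 2 * c k * (18 * (rho k / c k)) = 36 * rho k := by field_simp; ring
    have e5 : 36 * rho k < ε := by
      unfold rho
      rw [div_le_iff₀ hε] at hN2
      rw [mul_one_div, div_lt_iff₀ (by linarith)]
      nlinarith
    calc _ ≤ 2 * c k * (18 * (rho k / c k)) :=
          mul_le_mul hsq e3 (le_max_of_le_left (norm_nonneg _)) (by positivity)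
      _ < ε := by rw [e4]; exact e5

theorem c_mono : Monotone c := monotone_nat_of_le_succ fun k => by
  linarith [c_succ_ge' k, c_pos k]

/-- Points that the target avoids are badly approximable. -/
theorem bad_approx (hT : Slow T) {Y δ : ℝ} (hY : ∀ k, ∀ z : ℤ, δ ≤ |Y - T k - z|) {K : ℕ}
    (hK : 66 * rho K ≤ δ) (q : ℤ) (hq : 100 ≤ |(q : ℝ)|) (hqK : c K ^ 2 ≤ |(q : ℝ)|) :
    δ / 6 ≤ √|(q : ℝ)| * max ‖((alpha * q - Y : ℝ) : UnitAddCircle)‖
        ‖((beta * q - ht T : ℝ) : UnitAddCircle)‖ := by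
  obtain ⟨k, hk1, hk2⟩ := exists_scale hq
  obtain ⟨e1, z1, h1, he1⟩ := exists_rep (alpha * q - Y)
  obtain ⟨e2, z2, h2, he2⟩ := exists_rep (beta * q - ht T)
  rw [← he1, ← he2]
  set r := max |e1| |e2| with hr
  have hr1 : |e1| ≤ r := le_max_left _ _
  have hr2 : |e2| ≤ r := le_max_right _ _
  have hr0 : 0 ≤ r := (abs_nonneg _).trans hr1
  obtain ⟨z3, h3⟩ := form_int k
  obtain ⟨z4, h4⟩ := p_alpha T k
  obtain ⟨z5, h5⟩ := p_beta hT k
  have hb : (bN k : ℝ) = b k := rfl
  have key : Y - X T k - (((q - p T k) * z3 - z1 + z4 - bN k * z2 + bN k * z5 : ℤ) : ℝ) =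
      -((q - p T k) * sig (k + 1)) - e1 - b k * e2 - b k * xi T k := by
    push_cast
    rw [hb, ← h3, ← h4, ← h5]
    linear_combination (-1 : ℝ) * h1 - b k * h2
  set z : ℤ := (q - p T k) * z3 - z1 + z4 - bN k * z2 + bN k * z5 with hz
  have hc := c_ten k
  have hc0 := c_pos k
  have hc1 := c_ten (k + 1)
  have hc1' := c_pos (k + 1)
  have hcc := c_succ_ge' k
  have hrho := rho_le k
  have hrho0 := rho_pos k
  have hKk : rho k ≤ rho K := by
    have h6 : K ≤ k := by
      by_contra hlt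
      have h7 : c (k + 1) ≤ c K := c_mono (by omega)
      nlinarith
    have h7 : (K : ℝ) ≤ k := by exact_mod_cast h6
    exact one_div_le_one_div_of_le (by positivity) (by linarith)
  have hlow : δ - rho k ≤ |Y - X T k - z| := by
    have h6 := abs_sub_le (Y - T k - z) (Y - X T k - z) 0
    have h7 : Y - T k - z - (Y - X T k - z) = X T k - T k := by ring
    rw [sub_zero, sub_zero, h7] at h6
    linarith [X_near hT k, hY k z]
  have u1 : |((q : ℝ) - p T k) * sig (k + 1)| ≤ 8 * rho k := by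
    have v1 : |(q : ℝ) - p T k| ≤ 2 * c (k + 1) ^ 2 := by
      have := abs_sub (q : ℝ) (p T k)
      have := abs_p_le hT k
      nlinarith
    have v2 := sig_le (k + 1)
    have v3 := sig_nonneg (k + 1)
    have v4 := rho_succ_le k
    rw [abs_mul, abs_of_nonneg v3]
    calc _ ≤ 2 * c (k + 1) ^ 2 * (4 * (rho (k + 1) / c (k + 1) ^ 2)) :=
          mul_le_mul v1 v2 v3 (by positivity)
      _ = 8 * rho (k + 1) := by field_simp; ring
      _ ≤ 8 * rho k := by linarith
  obtain ⟨hb1, hb2⟩ := b_bounds k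
  have hb0 : 0 < b k := by linarith
  have u2 : |b k * e2| ≤ 2 * c k * r := by
    rw [abs_mul, abs_of_pos hb0]
    exact mul_le_mul hb2 hr2 (abs_nonneg _) (by positivity)
  have u3 : |b k * xi T k| ≤ 24 * rho k := by
    rw [abs_mul, abs_of_pos hb0]
    calc _ ≤ 2 * c k * (12 * (rho k / c k)) :=
          mul_le_mul hb2 (abs_xi_le hT k) (abs_nonneg _) (by positivity)
      _ = 24 * rho k := by field_simp; ring
  have u4 : |Y - X T k - z| ≤ 8 * rho k + r + 2 * c k * r + 24 * rho k := by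
    rw [key]
    obtain ⟨a1, a2⟩ := abs_le.mp u1
    obtain ⟨a3, a4⟩ := abs_le.mp u2
    obtain ⟨a5, a6⟩ := abs_le.mp u3
    obtain ⟨a7, a8⟩ := abs_le.mp hr1
    rw [abs_le]
    constructor <;> linarith
  have u5 : δ / 6 ≤ c k * r := by nlinarith
  have u6 : c k ≤ √|(q : ℝ)| := Real.le_sqrt_of_sq_le hk1
  exact u5.trans (mul_le_mul_of_nonneg_right u6 hr0)

theorem sin_sweep {u : ℝ} (hu : |u| ≤ 1) (N : ℕ) :
    ∃ k, N ≤ k ∧ |Real.sin (ph k) - u| ≤ rho k := by
  set s : ℝ := Real.arcsin u + ((N + 1 : ℕ) : ℝ) * (2 * Real.pi) with hs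
  have hsin : Real.sin s = u := by
    rw [hs, Real.sin_add_nat_mul_two_pi, Real.sin_arcsin (abs_le.mp hu).1 (abs_le.mp hu).2]
  have hN : (0 : ℝ) ≤ N := Nat.cast_nonneg N
  have hpi := Real.pi_gt_three
  have hs1 : (N : ℝ) ≤ s := by
    have := Real.neg_pi_div_two_le_arcsin u
    rw [hs]
    push_cast
    nlinarith
  have he : (N : ℝ) + 1 ≤ Real.exp s := by linarith [Real.add_one_le_exp s]
  have hy : (0 : ℝ) ≤ 300 * Real.exp s - 300 := by linarith
  refine ⟨⌊300 * Real.exp s - 300⌋₊, ?_, ?_⟩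
  · apply Nat.le_floor
    linarith
  · set k := ⌊300 * Real.exp s - 300⌋₊ with hk
    have h1 : (k : ℝ) ≤ 300 * Real.exp s - 300 := Nat.floor_le hy
    have h2 : 300 * Real.exp s - 300 < k + 1 := Nat.lt_floor_add_one _
    have hk0 : (0 : ℝ) ≤ k := Nat.cast_nonneg k
    have h3 : ph k ≤ s := by
      rw [ph, Real.log_le_iff_le_exp (by positivity)]
      linarith
    have h4 : s ≤ ph (k + 1) := by
      rw [ph, Real.le_log_iff_exp_le (by positivity)]
      push_cast
      linarith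
    have h5 := (ph_step k).2
    have h := Real.abs_sin_sub_sin_le (ph k) s
    have h6 : |ph k - s| ≤ rho k := by rw [abs_sub_comm, abs_of_nonneg (by linarith)]; linarith
    rw [← hsin]
    linarith

/-- The target that sweeps the arc of radius `s`. -/
noncomputable def sw (s : ℝ) (k : ℕ) : ℝ := s * Real.sin (ph k)

theorem sw_slow {s : ℝ} (h0 : 0 ≤ s) (h1 : s ≤ 1) : Slow (sw s) := by
  refine ⟨by simp [sw, ph], fun k => ?_⟩
  have h := Real.abs_sin_sub_sin_le (ph k) (ph (k + 1))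
  obtain ⟨h2, h3⟩ := ph_step k
  have h4 : |ph k - ph (k + 1)| ≤ rho k := by
    rw [abs_sub_comm, abs_of_nonneg (by linarith)]
    exact h3
  rw [sw, sw, ← mul_sub, abs_mul, abs_of_nonneg h0]
  exact (mul_le_of_le_one_left (abs_nonneg _) h1).trans (h.trans h4)

theorem sw_sweep {s Y : ℝ} (h1 : s ≤ 1) (hY : |Y| ≤ s) (N : ℕ) :
    ∃ k, N ≤ k ∧ |sw s k - Y| ≤ rho k := by
  have h0 : 0 ≤ s := (abs_nonneg Y).trans hY
  obtain ⟨u, hu, rfl⟩ : ∃ u, |u| ≤ 1 ∧ Y = s * u := by
    rcases h0.eq_or_lt with rfl | h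
    · exact ⟨0, by simp, by simpa using hY⟩
    · exact ⟨Y / s, by rw [abs_div, abs_of_pos h, div_le_one h]; exact hY, by field_simp⟩
  obtain ⟨k, hk, h⟩ := sin_sweep hu N
  refine ⟨k, hk, ?_⟩
  rw [sw, ← mul_sub, abs_mul, abs_of_nonneg h0]
  exact (mul_le_of_le_one_left (abs_nonneg _) h1).trans h

theorem qual_A0 (η : Fin 2 → UnitAddCircle) (Y y : ℝ) (h0 : η 0 = (Y : UnitAddCircle))
    (h1 : η 1 = (y : UnitAddCircle)) (q : Fin 1 → ℤ) :
    qual A0 η q = √|((q 0 : ℤ) : ℝ)| * max ‖((alpha * (q 0 : ℤ) - Y : ℝ) : UnitAddCircle)‖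
        ‖((beta * (q 0 : ℤ) - y : ℝ) : UnitAddCircle)‖ := by
  unfold qual
  rw [norm_fin_one, Real.sqrt_eq_rpow]
  congr 1
  · norm_num
  · apply le_antisymm
    · refine (pi_norm_le_iff_of_nonneg (le_max_of_le_left (norm_nonneg _))).mpr fun i => ?_
      fin_cases i
      · refine le_trans (le_of_eq ?_) (le_max_left _ _)
        simp [A0, h0]
      · refine le_trans (le_of_eq ?_) (le_max_right _ _)
        simp [A0, h1]
    · refine max_le ?_ ?_
      · refine le_trans (le_of_eq ?_) (norm_le_pi_norm _ 0)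
        simp [A0, h0]
      · refine le_trans (le_of_eq ?_) (norm_le_pi_norm _ 1)
        simp [A0, h1]

/-- On the circle of height `ht (sw s)` the bad points are those off the arc of radius `s`. -/
theorem mem_Bad_arc {s : ℝ} (h0 : 0 ≤ s) (h1 : s ≤ 1) (η : Fin 2 → UnitAddCircle)
    (hη1 : η 1 = (ht (sw s) : UnitAddCircle)) : η ∈ Bad A0 ↔ s < ‖η 0‖ := by
  obtain ⟨Y', hY'⟩ := QuotientAddGroup.mk_surjective (η 0)
  obtain ⟨Y, z, hz, hY⟩ := exists_rep Y'
  have hη : η 0 = (Y : UnitAddCircle) := by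
    rw [← hY', hz]
    simp
  have hY2 : |Y| = ‖η 0‖ := by
    have : (Y' : UnitAddCircle) = η 0 := hY'
    rw [hY, this]
  rw [mem_Bad_iff]
  constructor
  · rintro ⟨l, N, h⟩
    by_contra hs
    obtain ⟨q, hq1, hq2⟩ := well_approx (sw_slow h0 h1) (sw_sweep h1 (hY2.trans_le (not_lt.1 hs)))
      (ε := 1 / ((l : ℝ) + 1)) (by positivity) N
    have := h (fun _ => q) (by rw [norm_fin_one]; exact hq1)
    rw [qual_A0 η Y _ hη hη1] at this
    exact absurd hq2 (not_lt.mpr this)
  · intro hs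
    have hδ : 0 < ‖η 0‖ - s := by linarith
    obtain ⟨K, hK⟩ := exists_nat_ge (66 / (‖η 0‖ - s))
    obtain ⟨l, hl⟩ := exists_nat_one_div_lt (show 0 < (‖η 0‖ - s) / 6 by linarith)
    obtain ⟨N, hN⟩ := exists_nat_ge (100 + c K ^ 2)
    refine ⟨l, N, fun q hq => hl.le.trans ?_⟩
    rw [qual_A0 η Y _ hη hη1]
    rw [norm_fin_one] at hq
    refine bad_approx (sw_slow h0 h1) (K := K) (fun k w => ?_) ?_ (q 0)
      (by nlinarith [sq_nonneg (c K)]) (by linarith)
    · have e1 : ‖η 0‖ ≤ |Y - w| := hη ▸ norm_coe_le (z := w) (by ring)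
      have e2 : |sw s k| ≤ s := by
        rw [sw, abs_mul, abs_of_nonneg h0]
        exact mul_le_of_le_one_right h0 (Real.abs_sin_le_one _)
      have e3 := abs_add_le (Y - sw s k - w) (sw s k)
      rw [show Y - sw s k - w + sw s k = Y - w by ring] at e3
      linarith
    · rw [div_le_iff₀ hδ] at hK
      rw [rho, mul_one_div, div_le_iff₀ (by positivity)]
      nlinarith

theorem main : ∃ A : Matrix (Fin 2) (Fin 1) ℝ, MeasurableSet (Bad A) ∧
    ∀ t : ℝ, 0 ≤ t → t ≤ 1 → ∃ μ : Measure (Fin 2 → UnitAddCircle),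
      IsAlgebraicMeasure μ ∧ μ (Bad A) = ENNReal.ofReal t := by
  refine ⟨A0, measurableSet_Bad _, fun t t0 t1 => ?_⟩
  have : CompactSpace H0 := isCompact_iff_compactSpace.mp H0_closed.isCompact
  set s : ℝ := (1 - t) / 2 with hs
  have h0 : 0 ≤ s := by linarith
  have h1 : s ≤ 1 := by linarith
  let x : Fin 2 → UnitAddCircle := ![0, (ht (sw s) : UnitAddCircle)]
  let ν : Measure H0 := Measure.addHaarMeasure ⊤
  have hν : IsProbabilityMeasure ν := ⟨by
    have := Measure.addHaarMeasure_self (K₀ := (⊤ : TopologicalSpace.PositiveCompacts H0))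
    simpa using this⟩
  have hmeas : Measurable fun h : H0 => x + (h : Fin 2 → UnitAddCircle) :=
    (continuous_const.add continuous_subtype_val).measurable
  let π : H0 →+ UnitAddCircle := (Pi.evalAddMonoidHom (fun _ => UnitAddCircle) 0).comp H0.subtype
  have hc : Continuous π := (continuous_apply 0).comp continuous_subtype_val
  have hsurj : Function.Surjective π := fun y => ⟨⟨![y, 0], rfl⟩, rfl⟩
  have hvol : IsProbabilityMeasure (volume : Measure UnitAddCircle) := ⟨UnitAddCircle.measure_univ⟩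
  have hh := Measure.isAddHaarMeasure_map_of_isFiniteMeasure ν π hc hsurj
  have hp := Measure.isProbabilityMeasure_map (μ := ν) hc.measurable.aemeasurable
  have he : ν.map π = volume := Measure.isAddHaarMeasure_eq_of_isProbabilityMeasure _ _
  refine ⟨ν.map fun h : H0 => x + (h : Fin 2 → UnitAddCircle),
    ⟨x, H0, ν, H0_closed, H0_connected, inferInstance, hν, rfl⟩, ?_⟩
  have hset : (fun h : H0 => x + (h : Fin 2 → UnitAddCircle)) ⁻¹' Bad A0 =
      π ⁻¹' (Metric.closedBall 0 s)ᶜ := by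
    ext h
    have e1 : (h : Fin 2 → UnitAddCircle) 1 = 0 := h.2
    have e2 : (x + (h : Fin 2 → UnitAddCircle)) 0 = π h := by simp [x, π]
    rw [Set.mem_preimage, mem_Bad_arc h0 h1 _ (by simp [x, e1]), e2]
    simp
  rw [Measure.map_apply hmeas (measurableSet_Bad _), hset,
    ← Measure.map_apply hc.measurable measurableSet_closedBall.compl, he,
    prob_compl_eq_one_sub measurableSet_closedBall, AddCircle.volume_closedBall,
    min_eq_right (by linarith), ← ENNReal.ofReal_one, ← ENNReal.ofReal_sub _ (by linarith)]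
  congr 1
  linarith

end Pool.Agent.P.MP_39ae23_nt.AV
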