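import Mathlib
import Pool.Agent.P.MP_39ae23_nt.Defs
import Pool.Agent.P.MP_39ae23_nt.Main

set_option autoImplicit false

open Pool.Agent.P.MP_39ae23_nt

theorem Pool.Agent.Results.MP_39ae23_nt.NoZeroOne.result :
    ∃ (A : Matrix (Fin 2) (Fin 1) ℝ) (μ : MeasureTheory.Measure (Fin 2 → UnitAddCircle)),
      IsAlgebraicMeasure μ ∧ MeasurableSet (Bad A) ∧ 0 < μ (Bad A) ∧ μ (Bad A) < 1 :=
  main
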